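import Mathlib

namespace Pool.Agent.Results.MP_fb0157_co.Q2

/-- A `k`-equilateral `n`-gon: for `j = 1, ..., k` the distance from `x i` to `x (i + j)` does not
depend on `i`. -/
def Equilateral {n d : ℕ} (k : ℕ) (x : ZMod n → EuclideanSpace ℝ (Fin d)) : Prop :=
  ∀ j : ℕ, 1 ≤ j → j ≤ k → ∃ c : ℝ, ∀ i, dist (x i) (x (i + j)) = c

noncomputable def P : Fin 9 → EuclideanSpace ℝ (Fin 3) :=
  ![!₂[2 * √3, 0, 0], !₂[-2 * √3, 0, 2], !₂[2 * √3, 0, 4],
    !₂[-√3, 3, 0], !₂[√3, -3, 2], !₂[-√3, 3, 4],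
    !₂[-√3, -3, 0], !₂[√3, 3, 2], !₂[-√3, -3, 4]]

theorem result : ∃ x : ZMod 9 → EuclideanSpace ℝ (Fin 3), Function.Injective x ∧
    Equilateral 3 x ∧ Module.finrank ℝ (affineSpan ℝ (Set.range x)).direction = 3 := by
  have h3 : √3 ^ 2 = 3 := Real.sq_sqrt (by norm_num)
  have hp : 0 < √3 := by positivity
  refine ⟨P, ?_, ?_, ?_⟩
  · intro i j h
    have h1 := congrArg (fun y => y 0) h
    have h2 := congrArg (fun y => y 1) h
    have h4 := congrArg (fun y => y 2) h
    revert h1 h2 h4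
    fin_cases i <;> fin_cases j <;> first | exact fun _ _ _ => rfl | (simp [P] <;> intros <;> linarith)
  · intro j h1 h2
    have key : ∀ i j : Fin 9, ∀ c : ℝ, ∑ k, (P i k - P j k) ^ 2 = c → dist (P i) (P j) = √c :=
      fun i j c h => by rw [EuclideanSpace.dist_eq, ← h]; simp only [Real.dist_eq, sq_abs]
    interval_cases j
    · refine ⟨√52, fun i : Fin 9 => key i (i + 1) _ ?_⟩
      fin_cases i <;> simp [P, Fin.sum_univ_three] <;> nlinarith
    · refine ⟨√16, fun i : Fin 9 => key i (i + 2) _ ?_⟩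
      fin_cases i <;> simp [P, Fin.sum_univ_three] <;> nlinarith
    · refine ⟨√36, fun i : Fin 9 => key i (i + 3) _ ?_⟩
      fin_cases i <;> simp [P, Fin.sum_univ_three] <;> nlinarith
  · have hd : ∀ i j : Fin 9, P i - P j ∈ (affineSpan ℝ (Set.range P)).direction := fun i j =>
      AffineSubspace.vsub_mem_direction (mem_affineSpan ℝ ⟨i, rfl⟩) (mem_affineSpan ℝ ⟨j, rfl⟩)
    have : (affineSpan ℝ (Set.range P)).direction = ⊤ := by
      rw [eq_top_iff]
      intro v _
      have : v = (v 0 / (2 * √3)) • (P 4 - P 6) + (v 1 / 6) • (P 3 - P 6) +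
          (v 2 / 4 - v 0 / (4 * √3)) • (P 2 - P 0) := by
        ext k
        fin_cases k <;> simp [P] <;> field_simp <;> ring
      rw [this]
      exact add_mem (add_mem (Submodule.smul_mem _ _ (hd _ _)) (Submodule.smul_mem _ _ (hd _ _)))
        (Submodule.smul_mem _ _ (hd _ _))
    exact (congrArg (fun S : Submodule ℝ _ => Module.finrank ℝ S) this).trans (by simp)

end Pool.Agent.Results.MP_fb0157_co.Q2
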